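import Pool.Agent.TH613.CC.Main

/-!
# The Beilinson-Bloch conjecture on ranks in the central codimension

`𝒱` is a class of smooth projective geometrically irreducible varieties over the field `k` closed
under products (for example all of those over a number field), `C` the Chow groups with rational
coefficients (in the form of their formal properties, `IsChowProj`), `H` a Weil cohomology theory
(`IsWeilProj`), `P` a member of `𝒱` whose Chow motive is the one of the projective line (`IsLine`)
and `ord X m` an integer (the order at `s = m` of the L-function of `H^(2m-1)(X)`, or any number, if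
there is no continuation) with `ord (X × P) m = ord X m + ord X (m-1)` (`IsOrder`). The assertion
`BeilinsonBloch H ord X m` is the conjecture with rational coefficients for `X` and `m`: the space
`CH^m(X)_hom` has finite dimension, equal to `ord X m`. The number
`defect H ord X m = dim CH^m(X)_hom - ord X m` is the defect.

The only codimension `m` in which the L-function is considered at the centre of its functional
equation is the central one, `2 m = dim X + 1`. The theorem says what the conjecture in the central
codimension (for all varieties) gives in the other ones: it holds if and only if all spaces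
`CH^m(X)_hom` have finite dimension and the defects in the codimensions `m` and `dim X + 1 - m` are
opposite. So the full conjecture is equivalent to its half `2 m ≤ dim X + 1`, to its other half
`2 m ≥ dim X + 1`, and to the central case together with the equality of the defects in the
codimensions `m` and `dim X + 1 - m`, which says that `CH^m(X)_hom` and `CH^(dim X+1-m)(X)_hom` have
the same rank, if this holds for the orders (by the functional equation).

Proof. We have `CH^j(X × P^r)_hom = sum_s (r choose s) CH^(j-s)(X)_hom`. If
`dim X + r + 1 = 2 j`, the codimension `j` is central for `X × P^r`, where `P^r` is the power of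
`P`. With `r` large one gets that `CH^m(X)_hom` has finite dimension for all `m`. And one gets
`sum_s (r choose s) δ(j-s) = 0` for the defects `δ` of `X`; the sum of the terms with the indices
`s` and `r - s` is `(r choose s) (δ(j-s) + δ(dim X + 1 - (j - s)))`, and by induction on `r` only
the terms with `s = 0` and `s = r` are left.
-/

open CategoryTheory AlgebraicGeometry

set_option autoImplicit false

universe u v w

namespace Pool.Agent.Results.MP_b8021b_nt.CentralCodimension

open Pool.Agent.H914 Pool.Agent.W492.BB Pool.Agent.TH133 Pool.Agent.TH613.CC

/-- The Beilinson-Bloch conjecture (with rational coefficients) holds in the central codimension,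
`2 m = dim X + 1`, for all `X`, if and only if all `CH^m(X)_hom` have finite dimension and the
defects in the codimensions `m` and `dim X + 1 - m` are opposite. Therefore the following are
equivalent: the conjecture; the conjecture for `2 m ≤ dim X + 1`; the conjecture for
`2 m ≥ dim X + 1`; the conjecture for `2 m = dim X + 1` and the equality of the defects in the
codimensions `m` and `dim X + 1 - m`. -/
theorem result {k : Type u} [Field k] {𝒱 : VarClass k} (C : TheoryData.{u, v, 0} 𝒱 ℚ)
    [IsChowProj C] {K : Type w} [Field K] (H : WeilTheoryData.{u, v, w} C K) [IsWeilProj H]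
    (P : 𝒱.Obj) (hP : IsLine C P) (ord : 𝒱.Obj → ℤ → ℤ) (ho : IsOrder P ord) :
    ((∀ (X : 𝒱.Obj) (m : ℤ), (X.dim : ℤ) + 1 = 2 * m → BeilinsonBloch H ord X m) ↔
      ∀ (X : 𝒱.Obj) (m : ℤ), Module.Finite ℚ (hom H X m) ∧
        defect H ord X m + defect H ord X (X.dim + 1 - m) = 0) ∧
    List.TFAE [∀ (X : 𝒱.Obj) (m : ℤ), BeilinsonBloch H ord X m,
      ∀ (X : 𝒱.Obj) (m : ℤ), 2 * m ≤ X.dim + 1 → BeilinsonBloch H ord X m,
      ∀ (X : 𝒱.Obj) (m : ℤ), (X.dim : ℤ) + 1 ≤ 2 * m → BeilinsonBloch H ord X m,
      (∀ (X : 𝒱.Obj) (m : ℤ), (X.dim : ℤ) + 1 = 2 * m → BeilinsonBloch H ord X m) ∧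
        ∀ (X : 𝒱.Obj) (m : ℤ), (X.dim : ℤ) + 1 < 2 * m →
          defect H ord X m = defect H ord X (X.dim + 1 - m)] :=
  ⟨central_iff hP ho, tfae hP ho⟩

end Pool.Agent.Results.MP_b8021b_nt.CentralCodimension
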