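import Pool.Agent.TH652.ART.DMain

/-!
# The Beilinson-Bloch conjecture over all intermediate fields from the numbers of points over the
divisions of the Galois group

`X` is a projective variety over a number field `K`, `F / K` a finite Galois extension with group `G`,
and `S` a finite set of primes of `K`, containing the primes of bad reduction and the primes ramified
in `F`. For a subgroup `H` of `G` with fixed field `E` let

`L_H(s) = ∏_{v ∉ S} ∏_{w ∣ v} ∏_j (1 - α_{v,j}^{f_w} q_w^{-s})⁻¹`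

be the `L`-function of `H^i(X)` over `E`, without the factors above `S`: here `w` runs through the primes
of `E` above `v`, `f_w` is the residue degree of `w` over `v`, and `α_{v,1}, …, α_{v,N}` are the
eigenvalues of the geometric Frobenius at `v` on `H^i(X)`, so that the `α_{v,j}^{f_w}` are the
eigenvalues of the Frobenius at `w`. For `g ∈ G` let `D_g` be the division of `g`, the set of the
`x ∈ G` for which `x` and `g` generate conjugate subgroups, and for real `γ` and `T > 0`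

`S_g(T) = 1 / |D_g| · ∑_{v ∉ S, k ≥ 1, Frob_v^k ∈ D_g}
    - p_k(v) / (k q_v^{k s₀}) · exp (i γ k log q_v / T) / Γ(1 + k log q_v / T)`,

where `p_k(v) = ∑_j α_{v,j}^k` is determined by the numbers of points of `X` over the residue fields. We
show that `S_g(T)` is determined asymptotically by the functions `L_C` for the subgroups `C` of the
group generated by `g`, and conversely: for a rational representation `V` of `G` (`V` is
`CH^m_hom(X_F) ⊗ ℚ` in the conjecture, with `V^H = CH^m_hom(X_E) ⊗ ℚ`) the following are equivalent: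
the order of `L_C` at the real point `s₀` is `dim V^C` for all cyclic `C`; it is `dim V^H` for all `H`
for which `L_H` has a meromorphic continuation along `[s₀, ∞)`; `S_g(T) / log T` tends to
`tr(g | V) / |G|` for all `g`. Only the `L_C` for cyclic subgroups `C` are supposed to have a
meromorphic continuation along the half-line `[s₀, ∞)`; no hypothesis on the zeros is made.
-/

set_option autoImplicit false

open Filter Topology NumberField IsDedekindDomain Polynomial

namespace Pool.Agent.Results.MP_b8021b_nt.FrobeniusDivisionLaw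

open Pool.Agent.TH652.COL (IsFrobenius cone)
open Pool.Agent.TH652.ART (IsEulerFamily)

/-- `p_k(B) = ∑ ρ^{-k}`, the sum over the complex roots `ρ` of `B`, with multiplicities; this is
`∑ α_j^k` if `B = ∏ (1 - α_j z)`. It is a real number. -/
noncomputable def powerSum (B : ℝ[X]) (k : ℕ) : ℝ :=
  (((B.map (algebraMap ℝ ℂ)).roots.map fun ρ => (ρ⁻¹) ^ k).sum).re

/-- `Λ_γ = ∫_0^∞ (e^{-t} - e^{iγt} / Γ(1 + t)) dt / t`. -/
noncomputable def Lam (γ : ℝ) : ℂ := ∫ t in Set.Ioi (0 : ℝ),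
  (Complex.exp (-(t : ℂ)) - Complex.exp ((γ * t : ℝ) * Complex.I) *
    ((Real.Gamma (1 + t))⁻¹ : ℝ)) / t

/-- The number of the zeros minus the number of the poles of `L` on `(s₀, ∞)`, with
multiplicities. -/
noncomputable def excess (L : ℂ → ℂ) (s₀ : ℝ) : ℤ :=
  ∑ᶠ σ ∈ Set.Ioi s₀, (meromorphicOrderAt L (σ : ℂ)).untop₀

/-- `m (log T - Λ_γ) - log |l| + π i z` for the leading coefficient `l` and the excess `z` of `M` at
`s₀`. -/
noncomputable def expansion (M : ℂ → ℂ) (s₀ : ℝ) (m : ℤ) (γ T : ℝ) : ℂ :=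
  m * (Real.log T - Lam γ) - Real.log ‖meromorphicTrailingCoeffAt M (s₀ : ℂ)‖ +
    Real.pi * excess M s₀ * Complex.I

section
variable {G : Type} [Group G]

/-- The division of `g`: the elements `x` for which some conjugate of `x` generates the same subgroup
as `g`. -/
def division (g : G) : Set G :=
  {x | ∃ y : G, Subgroup.zpowers (y * x * y⁻¹) = Subgroup.zpowers g}

/-- The dimension of the space `V^H` of the vectors fixed by `H`. -/
noncomputable def fixedDim {V : Type} [AddCommGroup V] [Module ℚ V] (W : Representation ℚ G V)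
    (H : Subgroup G) : ℕ :=
  Module.finrank ℚ (Representation.invariants (W.comp H.subtype))

end

section
variable {K F : Type} [Field K] [NumberField K] [Field F] [NumberField F] [Algebra K F]

/-- The prime `v` of `K` is unramified in `F` and `g` is a Frobenius element at `v`: there is a maximal
ideal `Q` of `𝓞 F` above `v` with `g x ≡ x ^ q_v` modulo `Q` for all `x`, whose inertia group is
trivial. -/
def IsUnramifiedFrobenius (v : HeightOneSpectrum (𝓞 K)) (g : F ≃ₐ[K] F) : Prop :=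
  ∃ Q : Ideal (𝓞 F), Q.IsMaximal ∧ Q.comap (algebraMap (𝓞 K) (𝓞 F)) = v.asIdeal ∧
    (∀ x : 𝓞 F, g • x - x ^ Ideal.absNorm v.asIdeal ∈ Q) ∧
    ∀ h : F ≃ₐ[K] F, (∀ x : 𝓞 F, h • x - x ∈ Q) → h = 1

/-- The primes of the fixed field of `H` above the prime `v` of `K`. -/
def primesAbove (v : HeightOneSpectrum (𝓞 K)) (H : Subgroup (F ≃ₐ[K] F)) :
    Set (HeightOneSpectrum (𝓞 (IntermediateField.fixedField H))) :=
  {w | w.asIdeal.comap (algebraMap (𝓞 K) (𝓞 (IntermediateField.fixedField H))) = v.asIdeal}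

variable (S : Finset (HeightOneSpectrum (𝓞 K))) (B : HeightOneSpectrum (𝓞 K) → ℝ[X])

open Classical in
/-- `L_H(s) = ∏_{v ∉ S} ∏_{w ∣ v} ∏_j (1 - α_{v,j}^{f_w} q_w^{-s})⁻¹`; the `α_{v,j}` are the inverses
of the roots of `B_v`. -/
noncomputable def fieldL (H : Subgroup (F ≃ₐ[K] F)) (s : ℂ) : ℂ :=
  ∏' v : HeightOneSpectrum (𝓞 K), if v ∈ S then 1 else
    ∏ᶠ w ∈ primesAbove v H, (((B v).map (algebraMap ℝ ℂ)).roots.map fun a =>
      1 - a⁻¹ ^ w.asIdeal.inertiaDeg (𝓞 K) * (Ideal.absNorm w.asIdeal : ℂ) ^ (-s)).prod⁻¹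

/-- `M` is meromorphic at the points of the half-line `[s₀, ∞)` and equal to `L_H` on some right
half-plane. -/
def IsContinuation (H : Subgroup (F ≃ₐ[K] F)) (s₀ : ℝ) (M : ℂ → ℂ) : Prop :=
  (∀ x : ℝ, s₀ ≤ x → MeromorphicAt M (x : ℂ)) ∧
    ∃ σ₁ : ℝ, ∀ s : ℂ, σ₁ < s.re → M s = fieldL S B H s

/-- The term of `S_g(T)` for the prime `v = x.1` and the exponent `k = x.2 + 1`. -/
noncomputable def term (s₀ γ T : ℝ) (x : HeightOneSpectrum (𝓞 K) × ℕ) : ℂ :=
  ((-(powerSum (B x.1) (x.2 + 1) * (Ideal.absNorm x.1.asIdeal : ℝ) ^ (-((x.2 + 1) * s₀)) /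
    ((x.2 + 1) *
      Real.Gamma (1 + (x.2 + 1) * Real.log (Ideal.absNorm x.1.asIdeal : ℝ) / T))) : ℝ) : ℂ) *
    Complex.exp ((γ * ((x.2 + 1) * Real.log (Ideal.absNorm x.1.asIdeal : ℝ) / T) : ℝ) * Complex.I)

variable (K) in
/-- The prime powers `v ^ k`, `k = x.2 + 1`, with `log (q_v ^ k) ≤ e^{A T}`. -/
def cutoff (A T : ℝ) : Set (HeightOneSpectrum (𝓞 K) × ℕ) :=
  {x | (x.2 + 1) * Real.log (Ideal.absNorm x.1.asIdeal : ℝ) ≤ Real.exp (A * T)}

variable (Fr : HeightOneSpectrum (𝓞 K) → (F ≃ₐ[K] F))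

open Classical in
/-- `S_g(T)`, the sum over the prime powers `v ^ k`, `v ∉ S`, with `Frob_v ^ k` in the division of
`g`, divided by the number of the elements of this division. -/
noncomputable def divisionSum (s₀ γ : ℝ) (g : F ≃ₐ[K] F) (T : ℝ) : ℂ :=
  (Nat.card (division g) : ℂ)⁻¹ * ∑' x : HeightOneSpectrum (𝓞 K) × ℕ,
    if x.1 ∉ S ∧ Fr x.1 ^ (x.2 + 1) ∈ division g then term B s₀ γ T x else 0

open Classical in
/-- The part of `S_g(T)` with `log (q_v ^ k) ≤ e^{A T}`, a finite sum. -/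
noncomputable def finiteDivisionSum (A s₀ γ : ℝ) (g : F ≃ₐ[K] F) (T : ℝ) : ℂ :=
  (Nat.card (division g) : ℂ)⁻¹ * ∑ᶠ x ∈ cutoff K A T,
    if x.1 ∉ S ∧ Fr x.1 ^ (x.2 + 1) ∈ division g then term B s₀ γ T x else 0

/-- The statements about the functions `Σ_g(T)`, `g ∈ G`, for the orders `m_C` at `s₀` of the
continuations `L_C`, `C ⊆ G` a cyclic subgroup; here `n` is the order of `g`, and `C_d` is the group
generated by `g ^ d`:
* `Σ_g(T) = 1/(|G| φ(n)) ∑_{d ∣ n} μ(d) |C_d| (m_{C_d} (log T - Λ_γ) - log |l_{C_d}| + π i z_{C_d})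
+ O(1/T)`;
* `Σ_g(T) / log T` tends to `1/(|G| φ(n)) ∑_{d ∣ n} μ(d) |C_d| m_{C_d}`;
* for every finite dimensional rational representation `V` of `G` the following are equivalent:
`m_C = dim V^C` for all cyclic `C`; the order at `s₀` of every continuation of `L_H` is `dim V^H`, for
all subgroups `H`; `Σ_g(T) / log T` tends to `tr(g | V) / |G|` for all `g`. -/
def DivisionLaw [Fintype (F ≃ₐ[K] F)] (s₀ : ℝ) (L : Subgroup (F ≃ₐ[K] F) → ℂ → ℂ)
    (m : Subgroup (F ≃ₐ[K] F) → ℤ) (γ : ℝ) (Sg : (F ≃ₐ[K] F) → ℝ → ℂ) : Prop :=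
  (∀ g, (fun T : ℝ => Sg g T - ((Nat.card (F ≃ₐ[K] F) : ℂ) * (orderOf g).totient)⁻¹ *
      ∑ d ∈ (orderOf g).divisors, (ArithmeticFunction.moebius d : ℂ) *
        Nat.card (Subgroup.zpowers (g ^ d)) *
        expansion (L (Subgroup.zpowers (g ^ d))) s₀ (m (Subgroup.zpowers (g ^ d))) γ T)
      =O[atTop] (fun T : ℝ => 1 / T)) ∧
  (∀ g, Tendsto (fun T : ℝ => Sg g T / Real.log T) atTop
    (𝓝 (((Nat.card (F ≃ₐ[K] F) : ℂ) * (orderOf g).totient)⁻¹ *
      ∑ d ∈ (orderOf g).divisors, (ArithmeticFunction.moebius d : ℂ) *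
        Nat.card (Subgroup.zpowers (g ^ d)) * m (Subgroup.zpowers (g ^ d))))) ∧
  ∀ (V : Type) [AddCommGroup V] [Module ℚ V] [FiniteDimensional ℚ V]
    (W : Representation ℚ (F ≃ₐ[K] F) V),
    [∀ g, m (Subgroup.zpowers g) = fixedDim W (Subgroup.zpowers g),
      ∀ (H : Subgroup (F ≃ₐ[K] F)) (M : ℂ → ℂ), IsContinuation S B H s₀ M →
        meromorphicOrderAt M (s₀ : ℂ) = ((fixedDim W H : ℤ) : WithTop ℤ),
      ∀ g, Tendsto (fun T : ℝ => Sg g T / Real.log T) atTop
        (𝓝 (((W.character g : ℚ) : ℂ) / Nat.card (F ≃ₐ[K] F)))].TFAE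

end

section
variable {K F : Type} [Field K] [NumberField K] [Field F] [NumberField F] [Algebra K F]
  {S : Finset (HeightOneSpectrum (𝓞 K))} {B : HeightOneSpectrum (𝓞 K) → ℝ[X]}

theorem divisionLaw_of [Fintype (F ≃ₐ[K] F)] {s₀ : ℝ} {L : Subgroup (F ≃ₐ[K] F) → ℂ → ℂ}
    {m : Subgroup (F ≃ₐ[K] F) → ℤ} {γ : ℝ} {Sg Sg' : (F ≃ₐ[K] F) → ℝ → ℂ}
    (h : DivisionLaw S B s₀ L m γ Sg)
    (h' : ∀ g, (fun T : ℝ => Sg g T - Sg' g T) =O[atTop] (fun T : ℝ => 1 / T)) :
    DivisionLaw S B s₀ L m γ Sg' := by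
  obtain ⟨h1, h2, h3⟩ := h
  have hlim : ∀ g (a : ℂ), Tendsto (fun T : ℝ => Sg g T / Real.log T) atTop (𝓝 a) ↔
      Tendsto (fun T : ℝ => Sg' g T / Real.log T) atTop (𝓝 a) := by
    have h0 : Tendsto (fun T : ℝ => (1 : ℝ) / T) atTop (𝓝 0) :=
      tendsto_const_nhds.div_atTop tendsto_id
    have h5 : Tendsto (fun T : ℝ => (((Real.log T)⁻¹ : ℝ) : ℂ)) atTop (𝓝 0) := by
      have := (Complex.continuous_ofReal.tendsto 0).comp
        (Real.tendsto_log_atTop.inv_tendsto_atTop)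
      rw [Complex.ofReal_zero] at this
      exact this
    intro g a
    have h6 : Tendsto (fun T : ℝ => (Sg g T - Sg' g T) * (((Real.log T)⁻¹ : ℝ) : ℂ)) atTop
        (𝓝 0) := by
      have := ((h' g).trans_tendsto h0).mul h5
      rwa [mul_zero] at this
    have h7 : ∀ T : ℝ, Sg g T / Real.log T =
        Sg' g T / Real.log T + (Sg g T - Sg' g T) * (((Real.log T)⁻¹ : ℝ) : ℂ) := by
      intro T
      rw [Complex.ofReal_inv]
      ring
    constructor
    · intro h8
      have := h8.sub h6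
      rw [sub_zero] at this
      refine this.congr fun T => ?_
      rw [h7]
      ring
    · intro h8
      have := h8.add h6
      rw [add_zero] at this
      exact this.congr fun T => (h7 T).symm
  refine ⟨fun g => ?_, fun g => (hlim g _).1 (h2 g), fun V _ _ _ W => ?_⟩
  · refine ((h1 g).sub (h' g)).congr_left fun T => ?_
    ring
  · have h8 := h3 V W
    have h9 : (∀ g, Tendsto (fun T : ℝ => Sg g T / Real.log T) atTop
        (𝓝 (((W.character g : ℚ) : ℂ) / Nat.card (F ≃ₐ[K] F)))) ↔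
        ∀ g, Tendsto (fun T : ℝ => Sg' g T / Real.log T) atTop
        (𝓝 (((W.character g : ℚ) : ℂ) / Nat.card (F ≃ₐ[K] F))) :=
      forall_congr' fun g => hlim g _
    have h10 := h8.out 0 1
    have h11 := h8.out 0 2
    tfae_have 1 ↔ 2 := h10
    tfae_have 1 ↔ 3 := h11.trans h9
    tfae_finish

end

/-- **The orders of vanishing of the `L`-functions of `H^i(X)` over all intermediate fields of `F / K`
from the numbers of points over the primes of `K` with Frobenius in a given division of the Galois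
group.** -/
theorem result (K F : Type) [Field K] [NumberField K] [Field F] [NumberField F] [Algebra K F]
    [IsGalois K F] [Fintype (F ≃ₐ[K] F)] {l : ℕ} (X : Set (MvPolynomial (Fin l) (𝓞 K)))
    (d i N : ℕ) (S : Finset (HeightOneSpectrum (𝓞 K))) (B : HeightOneSpectrum (𝓞 K) → ℝ[X])
    (hB : IsEulerFamily X d i N S B) (Fr : HeightOneSpectrum (𝓞 K) → (F ≃ₐ[K] F))
    (hFr : ∀ v ∉ S, IsUnramifiedFrobenius v (Fr v)) (s₀ : ℝ)
    (L : Subgroup (F ≃ₐ[K] F) → ℂ → ℂ)
    (hL : ∀ g, IsContinuation S B (Subgroup.zpowers g) s₀ (L (Subgroup.zpowers g))) :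
    ∃ m : Subgroup (F ≃ₐ[K] F) → ℤ,
      (∀ g, meromorphicOrderAt (L (Subgroup.zpowers g)) (s₀ : ℂ) = m (Subgroup.zpowers g) ∧
        meromorphicTrailingCoeffAt (L (Subgroup.zpowers g)) (s₀ : ℂ) ≠ 0 ∧
        {σ : ℝ | s₀ ≤ σ ∧ meromorphicOrderAt (L (Subgroup.zpowers g)) (σ : ℂ) ≠ 0}.Finite) ∧
      ∀ γ : ℝ, Real.pi / 2 < γ →
        DivisionLaw S B s₀ L m γ (divisionSum S B Fr s₀ γ) ∧
        ∀ A : ℝ, 0 < A → 1 + (i : ℝ) / 2 - s₀ < A → (∀ T : ℝ, (cutoff K A T).Finite) ∧
          DivisionLaw S B s₀ L m γ (finiteDivisionSum S B Fr A s₀ γ) := by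
  classical
  have E := TH652.ART.ldataS hB
  have hterm : ∀ (γ : ℝ) (g : F ≃ₐ[K] F) (T : ℝ) (x : HeightOneSpectrum (𝓞 K) × ℕ),
      (Nat.card (division g) : ℂ)⁻¹ *
        (if x.1 ∉ S ∧ Fr x.1 ^ (x.2 + 1) ∈ division g then term B s₀ γ T x else 0) =
      (TH652.ART.ek Fr g x : ℂ) *
        TH652.COL.lterm TH652.COL.nv (TH652.ART.bS S B) s₀ γ T x := by
    intro γ g T x
    unfold TH652.ART.ek TH652.ART.dw TH652.ART.bS
    by_cases hv : x.1 ∈ S
    · rw [if_neg fun h => h.1 hv, mul_zero]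
      have : TH652.COL.lterm TH652.COL.nv (fun v => if v ∈ S then (1 : ℝ[X]) else B v) s₀ γ T x =
          0 := by
        unfold TH652.COL.lterm
        beta_reduce
        rw [if_pos hv, TH652.ART.pw_one]
        simp
      rw [this, mul_zero]
    · have h1 : TH652.COL.lterm TH652.COL.nv (fun v => if v ∈ S then (1 : ℝ[X]) else B v) s₀ γ T x =
          term B s₀ γ T x := by
        unfold TH652.COL.lterm
        beta_reduce
        rw [if_neg hv]
        rfl
      rw [h1]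
      by_cases hg : Fr x.1 ^ (x.2 + 1) ∈ division g
      · rw [if_pos ⟨hv, hg⟩, if_pos (show Fr x.1 ^ (x.2 + 1) ∈ TH652.ART.dv g from hg)]
        push_cast
        rw [one_div]
        rfl
      · rw [if_neg fun h => hg h.2, if_neg (show Fr x.1 ^ (x.2 + 1) ∉ TH652.ART.dv g from hg)]
        simp
  have hsum : ∀ (γ : ℝ) (g : F ≃ₐ[K] F) (T : ℝ), divisionSum S B Fr s₀ γ g T =
      TH652.ART.wsum TH652.COL.nv (TH652.ART.bS S B) (TH652.ART.ek Fr g) s₀ γ T := by
    intro γ g T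
    unfold divisionSum TH652.ART.wsum
    rw [← tsum_mul_left]
    exact tsum_congr fun x => hterm γ g T x
  have hfsum : ∀ (A γ : ℝ) (g : F ≃ₐ[K] F) (T : ℝ), finiteDivisionSum S B Fr A s₀ γ g T =
      ∑ᶠ x ∈ TH652.COL.cut TH652.COL.nv A T, (TH652.ART.ek Fr g x : ℂ) *
        TH652.COL.lterm TH652.COL.nv (TH652.ART.bS S B) s₀ γ T x := by
    intro A γ g T
    unfold finiteDivisionSum
    have hfin : (TH652.COL.cut (TH652.COL.nv (K := K)) A T).Finite :=
      TH652.COL.cut_finite TH652.COL.two_le_nv TH652.COL.nv_finite A T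
    have hfin' : (cutoff K A T).Finite := hfin
    rw [finsum_mem_eq_finite_toFinset_sum _ hfin', finsum_mem_eq_finite_toFinset_sum _ hfin,
      Finset.mul_sum]
    exact Finset.sum_congr rfl fun x _ => hterm γ g T x
  obtain ⟨m, hm, hlaw⟩ := TH652.ART.divlaw (s₀ := s₀) (L := L) hB hFr hL
  refine ⟨m, hm, fun γ hγ => ?_⟩
  have hcf : ∀ (g : F ≃ₐ[K] F) (k : ℕ), (TH652.ART.cf g k : ℂ) =
      (ArithmeticFunction.moebius k : ℂ) * Nat.card (Subgroup.zpowers (g ^ k)) := by
    intro g k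
    unfold TH652.ART.cf
    push_cast
    rfl
  have hc0 : ∀ g : F ≃ₐ[K] F, ((((Nat.card (F ≃ₐ[K] F) : ℝ) * (orderOf g).totient)⁻¹ : ℝ) : ℂ) =
      ((Nat.card (F ≃ₐ[K] F) : ℂ) * (orderOf g).totient)⁻¹ := by
    intro g
    push_cast
    rfl
  have key : DivisionLaw S B s₀ L m γ (divisionSum S B Fr s₀ γ) := by
    refine ⟨fun g => ?_, fun g => ?_, fun V _ _ _ W => ?_⟩
    · refine (hlaw γ hγ g).1.congr_left fun T => ?_
      rw [hsum, hc0]
      simp only [hcf]
      rfl
    · have h1 := (hlaw γ hγ g).2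
      rw [hc0] at h1
      simp only [hcf] at h1
      simp only [hsum]
      exact h1
    · have h1 := TH652.ART.div_tfae (s₀ := s₀) (L := L) hB hFr hL W (fun g => (hm g).1) hγ
        fun g => (hlaw γ hγ g).2
      simp only [hsum]
      exact h1
  refine ⟨key, fun A hA hA1 => ⟨fun T => TH652.COL.cut_finite TH652.COL.two_le_nv
    TH652.COL.nv_finite A T, divisionLaw_of key fun g => ?_⟩⟩
  have h3 := TH652.ART.wcut E (w := TH652.ART.ek Fr g) (TH652.ART.abs_ek_le Fr g)
    TH652.COL.nv_finite s₀ γ hA (by linarith)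
  refine h3.congr_left fun T => ?_
  rw [hsum, hfsum]

end Pool.Agent.Results.MP_b8021b_nt.FrobeniusDivisionLaw
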