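import Pool.Agent.TH936.NF.Pack

/-!
# Central values of the twists of a newform of even weight by characters of large order

`f ∈ S_2m(Γ₁(N))` is a newform with character `η`.  Its motive occurs in the middle cohomology
`H^(2m-1)` of a Kuga-Sato variety (for `m = 1` of a modular curve), `s = m` is the centre of the
functional equation, and `∏ L(f, χ, s)` over the Dirichlet characters `χ` modulo `q` is the
`L`-function of the motive over the number field `ℚ(ζ_q)`.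

* `L(f, χ, m) ≠ 0` for **all** primitive Dirichlet characters `χ` of conductor `q` prime to `N` and of
  order at least `q ^ (3/4 + ε)`, if `q` is large in terms of `f` and `ε`.
* For all powers `q = p ^ k` of primes `p ≠ 2`, `p ∤ N`, the order of vanishing at `s = m` of
  `L(f/ℚ(ζ_q), s)` is at most `C q ^ (3/4 + ε)` and at most `C p ^ (3 + ε)`, where `C` depends only on
  `f` and `ε`.

The nonvanishing for one conjugate of `χ` is proved with the mean value over the conjugates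
(starting modules of helper192 and others, `W192.CY`, `W192.WO`, ...); it is transferred to all
conjugates by means of the periods of `f`: the numbers `∫_r^{i∞} f(z) z^j dz`, `r ∈ ℚ`,
`0 ≤ j ≤ 2m - 2`, lie in a finite-dimensional `ℚ`-vector space, whence there is an integer `M` such that
`L(f, χ, m) = 0` if and only if `L(f, χ ^ a, m) = 0` for all `a ≡ 1 mod M` prime to the order of `χ`.
-/

set_option autoImplicit false

open Complex UpperHalfPlane MatrixGroups CongruenceSubgroup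

namespace Pool.Agent.Results.MP_b8021b_nt.NewformTwists

/-- The `n`-th Fourier coefficient of `f`. -/
noncomputable def coef {N : ℕ} {k : ℤ} (f : CuspForm (Gamma1 N : Subgroup (GL (Fin 2) ℝ)) k)
    (n : ℕ) : ℂ :=
  (qExpansion 1 f).coeff n

/-- `f ∈ S_2m(Γ₁(N))` is a newform of weight `2m` with character `η`:
`f(γτ) = η(d) (cτ + d)^(2m) f(τ)` for all `γ = (a b; c d) ∈ Γ₀(N)`, the Fourier coefficients `c(n)` of
`f` satisfy `c(1) = 1`, `c(ab) = c(a) c(b)` for coprime `a`, `b`,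
`c(p^(j+2)) = c(p) c(p^(j+1)) - η(p) p^(2m-1) c(p^j)`, for the primes `p ∤ N` also
`conj c(p) = conj η(p) c(p)` and `|c(p)| ≤ 2 p^((2m-1)/2)`, for the primes `p ∣ N`
`|c(p)| ≤ p^((2m-1)/2)` (Deligne, Li); the Fricke involution takes `f` to a multiple of `f^c`,
`f^c(τ) = conj f(-conj τ)`: `f(-1/(Nτ)) = (-1)^m w N^m τ^(2m) f^c(τ)` with `|w| = 1`. -/
structure IsNewform (m N : ℕ) (η : DirichletCharacter ℂ N)
    (f : CuspForm (Gamma1 N : Subgroup (GL (Fin 2) ℝ)) (2 * m : ℤ)) : Prop where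
  neb : ∀ γ : SL(2, ℤ), γ ∈ Gamma0 N → ∀ τ : ℍ, f (γ • τ) = η ((γ 1 1 : ℤ) : ZMod N) *
    (((γ 1 0 : ℤ) : ℂ) * (τ : ℂ) + ((γ 1 1 : ℤ) : ℂ)) ^ (2 * m) * f τ
  one : coef f 1 = 1
  mul : ∀ a b : ℕ, Nat.Coprime a b → coef f (a * b) = coef f a * coef f b
  pow : ∀ p j : ℕ, p.Prime → coef f (p ^ (j + 2)) = coef f p * coef f (p ^ (j + 1)) -
    η (p : ZMod N) * (p : ℂ) ^ (2 * m - 1) * coef f (p ^ j)
  conj : ∀ p : ℕ, p.Prime → ¬ p ∣ N → (starRingEnd ℂ) (coef f p) =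
    (starRingEnd ℂ) (η (p : ZMod N)) * coef f p
  good : ∀ p : ℕ, p.Prime → ¬ p ∣ N → ‖coef f p‖ ≤ 2 * (p : ℝ) ^ ((2 * m - 1 : ℝ) / 2)
  bad : ∀ p : ℕ, p.Prime → p ∣ N → ‖coef f p‖ ≤ (p : ℝ) ^ ((2 * m - 1 : ℝ) / 2)
  fricke : ∃ w : ℂ, ‖w‖ = 1 ∧ ∀ τ τ' τc : ℍ, (τ' : ℂ) * ((N : ℂ) * (τ : ℂ)) = -1 →
    (τc : ℂ) = -(starRingEnd ℂ) (τ : ℂ) →
    f τ' = (-1 : ℂ) ^ m * w * (N : ℂ) ^ m * (τ : ℂ) ^ (2 * m) * (starRingEnd ℂ) (f τc)

/-- The Euler factor of `L(f, χ, s)` at the prime `p`: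
`(1 - χ(p) c(p) p^(-s) + χ(p)² η(p) p^(2m-1-2s))⁻¹`. -/
noncomputable def factor {m N : ℕ} (η : DirichletCharacter ℂ N)
    (f : CuspForm (Gamma1 N : Subgroup (GL (Fin 2) ℝ)) (2 * m : ℤ)) (q : ℕ)
    (χ : DirichletCharacter ℂ q) (s : ℂ) (p : ℕ) : ℂ :=
  (1 - χ (p : ZMod q) * coef f p * (p : ℂ) ^ (-s) +
    χ (p : ZMod q) ^ 2 * η (p : ZMod N) * (p : ℂ) ^ (2 * (m : ℂ) - 1 - 2 * s))⁻¹

theorem newf {m N : ℕ} {η : DirichletCharacter ℂ N}
    {f : CuspForm (Gamma1 N : Subgroup (GL (Fin 2) ℝ)) (2 * m : ℤ)} (hf : IsNewform m N η f) :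
    ∃ w : ℂ, Pool.Agent.W192.CY.NNewf m N η f w := by
  obtain ⟨w, hw, hfr⟩ := hf.fricke
  exact ⟨w, ⟨hf.one, hf.mul, hf.pow, hf.conj, hf.good, hf.bad, hf.neb, hw, hfr⟩⟩

/-- **Main theorem.** Let `f ∈ S_2m(Γ₁(N))`, `m ≥ 1`, be a newform with character `η`.  For every
primitive Dirichlet character `χ` of conductor `q` prime to `N` there is an entire function
`L q χ ≢ 0` which for `Re s > m + 1/2` is the Euler product of `L(f, χ, s)`, such that:

* for every `ε > 0` there is `q₀` such that `L(f, χ, m) ≠ 0` for all primitive characters `χ` modulo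
  `q ≥ q₀`, `(q, N) = 1`, of order at least `q ^ (3/4 + ε)`;
* for every `M ≥ 1` and `ε > 0` there is `q₀` such that for all `q ≥ q₀` prime to `N` and all primitive
  characters `χ` modulo `q` of order at least `q ^ (3/4 + ε)` there is `a ≡ 1 mod M` prime to the order
  of `χ` with `|L(f, χ ^ a, m)| ≥ q ^ (-ε)`;
* there is `M ≥ 1` such that for all primitive characters `χ` of conductor prime to `N` and all
  `a ≡ 1 mod M` prime to the order of `χ`: `L(f, χ ^ a, m) = 0` if and only if `L(f, χ, m) = 0`;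
* for every `ε > 0` there is `C` such that for all primes `p ≠ 2`, `p ∤ N`, and all `k` the sum of the
  orders of vanishing at `s = m` of `L(f, χ', s)`, where `χ` runs over the characters modulo `p ^ k` and
  `χ'` is the primitive character that induces `χ`, is at most `C (p ^ k) ^ (3/4 + ε)` and at most
  `C p ^ (3 + ε)`. -/
theorem result (m : ℕ) (hm : 1 ≤ m) (N : ℕ) [NeZero N] (η : DirichletCharacter ℂ N)
    (f : CuspForm (Gamma1 N : Subgroup (GL (Fin 2) ℝ)) (2 * m : ℤ)) (hf : IsNewform m N η f) :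
    ∃ L : (q : ℕ) → DirichletCharacter ℂ q → ℂ → ℂ,
      (∀ (q : ℕ) (χ : DirichletCharacter ℂ q), 1 ≤ q → Nat.Coprime q N → χ.IsPrimitive →
        Differentiable ℂ (L q χ) ∧ analyticOrderAt (L q χ) m ≠ ⊤ ∧
        ∀ s : ℂ, (m : ℝ) + 1 / 2 < s.re →
          HasProd (fun p : Nat.Primes => factor η f q χ s p) (L q χ s)) ∧
      (∀ ε : ℝ, 0 < ε → ∃ q0 : ℕ, ∀ q : ℕ, q0 ≤ q → Nat.Coprime q N →
        ∀ χ : DirichletCharacter ℂ q, χ.IsPrimitive → (q : ℝ) ^ (3 / 4 + ε) ≤ orderOf χ →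
          L q χ m ≠ 0) ∧
      (∀ M : ℕ, 1 ≤ M → ∀ ε : ℝ, 0 < ε → ∃ q0 : ℕ, ∀ q : ℕ, q0 ≤ q → Nat.Coprime q N →
        ∀ χ : DirichletCharacter ℂ q, χ.IsPrimitive → (q : ℝ) ^ (3 / 4 + ε) ≤ orderOf χ →
          ∃ a : ℕ, Nat.Coprime a (orderOf χ) ∧ a ≡ 1 [MOD M] ∧ (χ ^ a).IsPrimitive ∧
            (q : ℝ) ^ (-ε) ≤ ‖L q (χ ^ a) m‖) ∧
      (∃ M : ℕ, 1 ≤ M ∧ ∀ q : ℕ, 1 ≤ q → Nat.Coprime q N → ∀ χ : DirichletCharacter ℂ q,
        χ.IsPrimitive → ∀ a : ℕ, Nat.Coprime a (orderOf χ) → a ≡ 1 [MOD M] →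
          (L q (χ ^ a) m = 0 ↔ L q χ m = 0)) ∧
      ∀ ε : ℝ, 0 < ε → ∃ C : ℝ, ∀ p : ℕ, p.Prime → p ≠ 2 → ¬ p ∣ N → ∀ k : ℕ,
        ((∑ᶠ χ : DirichletCharacter ℂ (p ^ k), analyticOrderNatAt
          (L χ.conductor χ.primitiveCharacter) m : ℕ) : ℝ) ≤ C * ((p : ℝ) ^ k) ^ (3 / 4 + ε) ∧
        ((∑ᶠ χ : DirichletCharacter ℂ (p ^ k), analyticOrderNatAt
          (L χ.conductor χ.primitiveCharacter) m : ℕ) : ℝ) ≤ C * (p : ℝ) ^ (3 + ε) := by
  obtain ⟨w, hw⟩ := newf hf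
  obtain ⟨K, L, hK, hL⟩ := Pool.Agent.TH936.NF.exists_fam hm hw
  exact ⟨L, fun q χ hq hqN hχ => ⟨hL.diff q χ hq hqN hχ, hL.top q χ hq hqN hχ,
      fun s hs => hL.eul q χ hq hqN hχ s hs⟩,
    fun ε hε => Pool.Agent.TH936.NF.nonvanish hm hw hL ε hε,
    fun M hM ε hε => Pool.Agent.TH936.NF.conj_lower hm hw hL M hM ε hε,
    Pool.Agent.TH936.NF.gal_inv hm hw hL,
    fun ε hε => Pool.Agent.TH936.NF.total hm hw hK hL ε hε⟩

end Pool.Agent.Results.MP_b8021b_nt.NewformTwists
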