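import Pool.Agent.TH270.RS.Eul
import Pool.Agent.TH652.COL.NF

/-!
# Weighted Euler products at the centre: the Riemann hypothesis and `order ≤ rank`, all varieties

`X` is a projective variety of dimension `d` over a number field `K`, given by homogeneous polynomials over
`𝓞 K`, `B_v` are the Euler factors of `L(s) = L(H^i(X), s)`: for almost all primes `v` the polynomial
`∏ (1 - α_j z)` of the eigenvalues of Frobenius on `H^i`, which are determined by the numbers of points of `X`
over the finite extensions of the residue field, and at the other primes arbitrary real polynomials with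
constant term `1` whose roots have absolute values `≥ q_v^{-i/2}`. Let `c = (i+1)/2` be the centre (the point
`s = m` of the conjecture of Beilinson and Bloch for `i = 2 m - 1`) and `p_k(v)` the sum of the `k`-th powers
of the inverse roots of `B_v`, so that `log L(s) = ∑ p_k(v) / (k q_v^{ks})` for `Re s > i/2 + 1`. For a weight
`w` on `(0, β]` let

`Π_w(X) = exp ∑_{q_v^k ≤ X^β} w(log q_v^k / log X) p_k(v) / (k q_v^{kc})`,

the partial Euler product of `L` at the centre with the cut-off `w`, and `Π_k = Π_w` for the Riesz weight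
`w(u) = (1 - u)^k`, `β = 1`. Admissible weights: `w` bounded and measurable, not almost everywhere zero near
`β`, with `∫_0^β |w(u) - 1| du/u < ∞` (for example `w = 1` on `(0, β]`, the sharp product). Let `F` be a
continuation of `L`, holomorphic for `Re s > c` and at `s = c`. It is shown, for all varieties and all `i`:

* the order of `F` at `c` is finite, and WITHOUT any assumption on the growth of `F`, for ONE admissible `w`:
  - if `log Π_w(X) = O(X^ε)` for every `ε > 0`, then `F` has no zeros with `Re s > c`;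
  - if `log Π_w(X) = -(ρ + o(1)) log log X`, then moreover `ρ` is the order of `F` at `c`;
  - if `w ≥ 0` and `Π_w(X) ≥ (log X)^{-ρ-ε}` for large `X` and every `ε > 0` (a bound from ONE side), then `F`
    has no zeros with `Re s > c` and its order at `c` is at most `ρ`;
* if `F` has polynomial growth (for `Re s > c`, in the weak form
  `|F(s)| ≤ C (1 + |s|)^κ (1 + 1/(Re s - c))^κ`), then for every `r` (the rank of the Chow group):
  - `F` has order at most `r` at `c` and no zeros with `Re s > c`, iff `(log X)^r Π_k(X)` is bounded below by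
    a positive constant for large `X`, for all `k > 0`, iff it is so for one `k > 0`, iff the one-sided bound
    above holds for one admissible `w ≥ 0`;
  - `F` has order exactly `r` at `c` and no zeros with `Re s > c`, iff `(log X)^r Π_k(X)` has a positive
    limit for all `k > 0`, iff it is bounded between positive constants for one `k > 0`, iff
    `log Π_w(X) = -(r + o(1)) log log X` for one admissible `w`.
-/

set_option autoImplicit false

open Filter Topology NumberField IsDedekindDomain Polynomial MeasureTheory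

namespace Pool.Agent.Results.MP_b8021b_nt.OneSidedLaw

open Pool.Agent.TH652.COL (IsEulerSystem IsFrobenius cone)

section definitions

variable {K : Type} [Field K] [NumberField K]

/-- The norm `q_v` of a prime. -/
noncomputable def q (v : HeightOneSpectrum (𝓞 K)) : ℕ := Ideal.absNorm v.asIdeal

/-- All complex roots of all `B_v` have absolute value at least `q_v^{-i/2}`. For almost all `v` this
follows from `IsEulerSystem`; it is the purity of the Euler factors at the other primes. -/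
def IsPure (B : HeightOneSpectrum (𝓞 K) → ℝ[X]) (i : ℕ) : Prop :=
  ∀ v, ∀ ρ : ℂ, ((B v).map (algebraMap ℝ ℂ)).IsRoot ρ → (q v : ℝ) ^ (-((i : ℝ) / 2)) ≤ ‖ρ‖

/-- The `L`-function, the product of the `B_v(q_v^{-s})⁻¹`; it is used for `Re s > i/2 + 1`, where the
product converges absolutely. -/
noncomputable def L (B : HeightOneSpectrum (𝓞 K) → ℝ[X]) (s : ℂ) : ℂ :=
  ∏' v : HeightOneSpectrum (𝓞 K), (((B v).map (algebraMap ℝ ℂ)).eval ((q v : ℂ) ^ (-s)))⁻¹

/-- The centre `(i + 1)/2`. -/
noncomputable def centre (i : ℕ) : ℝ := ((i : ℝ) + 1) / 2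

/-- `p_k(v)`: the sum of the `k`-th powers of the inverses of the complex roots of `B_v` (a real
number), for almost all `v` the trace of the `k`-th power of the Frobenius. -/
noncomputable def powerSum (B : HeightOneSpectrum (𝓞 K) → ℝ[X]) (k : ℕ)
    (v : HeightOneSpectrum (𝓞 K)) : ℝ :=
  ((((B v).map (algebraMap ℝ ℂ)).roots.map fun ρ => (ρ⁻¹) ^ k).sum).re

/-- `log Π_w(X)`: the sum over the powers `v^k`, `k = j + 1 ≥ 1`, of the primes with `q_v^k ≤ X^β` of the
numbers `w(k log q_v / log X) · p_k(v) / (k q_v^{kc})`. -/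
noncomputable def logProduct (B : HeightOneSpectrum (𝓞 K) → ℝ[X]) (i : ℕ) (w : ℝ → ℝ) (β X : ℝ) : ℝ :=
  ∑ᶠ (p : HeightOneSpectrum (𝓞 K) × ℕ) (_ : (q p.1 : ℝ) ^ (p.2 + 1) ≤ X ^ β),
    w (((p.2 : ℝ) + 1) * Real.log (q p.1) / Real.log X) *
      (powerSum B (p.2 + 1) p.1 / (((p.2 : ℝ) + 1) * ((q p.1 : ℝ) ^ centre i) ^ (p.2 + 1)))

/-- `Π_w(X)`. -/
noncomputable def product (B : HeightOneSpectrum (𝓞 K) → ℝ[X]) (i : ℕ) (w : ℝ → ℝ) (β X : ℝ) : ℝ :=
  Real.exp (logProduct B i w β X)

/-- The Riesz weight `(1 - u)^k`, `0 < u ≤ 1`. -/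
noncomputable def riesz (k u : ℝ) : ℝ := (max (1 - u) 0) ^ k

/-- The admissible weights on `(0, β]`: bounded and measurable, not almost everywhere `0` on any interval
`(κ, β)`, with `∫_0^β |w(u) - 1| du/u < ∞`. -/
structure IsWeight (w : ℝ → ℝ) (β : ℝ) : Prop where
  pos : 0 < β
  meas : Measurable w
  bdd : ∃ W : ℝ, ∀ u : ℝ, 0 < u → u ≤ β → |w u| ≤ W
  top : ∀ κ : ℝ, 0 ≤ κ → κ < β → ¬ ∀ᵐ u : ℝ, u ∈ Set.Ioo κ β → w u = 0
  dini : IntegrableOn (fun u : ℝ => |w u - 1| / u) (Set.Ioo 0 β)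

/-- `F` is holomorphic for `Re s > (i + 1)/2` and at `s = (i + 1)/2`, and is equal to `L` for
`Re s > i/2 + 1`. -/
def Continues (B : HeightOneSpectrum (𝓞 K) → ℝ[X]) (i : ℕ) (F : ℂ → ℂ) : Prop :=
  (∀ s : ℂ, centre i < s.re → DifferentiableAt ℂ F s) ∧ AnalyticAt ℂ F (centre i) ∧
    ∀ s : ℂ, (i : ℝ) / 2 + 1 < s.re → F s = L B s

/-- No zeros with `Re s > (i + 1)/2`. -/
def NoZeros (F : ℂ → ℂ) (i : ℕ) : Prop := ∀ s : ℂ, centre i < s.re → F s ≠ 0

/-- Polynomial growth for `Re s > c`: `|F(s)| ≤ C (1 + |s|)^κ (1 + 1/(Re s - c))^κ`. -/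
def HasPolynomialGrowth (F : ℂ → ℂ) (i : ℕ) : Prop :=
  ∃ (C : ℝ) (κ : ℕ), ∀ s : ℂ, centre i < s.re →
    ‖F s‖ ≤ C * (1 + ‖s‖) ^ κ * (1 + 1 / (s.re - centre i)) ^ κ

end definitions

section proofs

open Pool.Agent.TH270.SH Pool.Agent.TH270.RS Pool.Agent.TH942.ES
open Pool.Agent.TH942.RZ (rzw)

variable {K : Type} [Field K] [NumberField K] {B : HeightOneSpectrum (𝓞 K) → ℝ[X]} {i D : ℕ}
  {F : ℂ → ℂ}

theorem centre_half (i : ℕ) : centre i + 1 / 2 = (i : ℝ) / 2 + 1 := by
  unfold centre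
  ring

theorem eul (h0 : ∀ v, (B v).coeff 0 = 1) (hD : ∀ v, (B v).natDegree ≤ D) (hp : IsPure B i) :
    Eul B D (centre i) where
  const := h0
  deg := hD
  root := fun v ρ hρ => by
    have h := hp v ρ hρ
    have e : (1 : ℝ) / 2 - centre i = -((i : ℝ) / 2) := by
      unfold centre
      ring
    rw [e]
    exact h

theorem logProduct_eq (h : Eul B D (centre i)) (w : ℝ → ℝ) (β X : ℝ) :
    logProduct B i w β X = Mw nmK (alB B D (centre i)) w β X := by
  unfold logProduct Mw
  refine finsum_congr fun p => ?_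
  refine finsum_congr fun _ => ?_
  rw [h.cP_eq p]
  rfl

theorem IsWeight.ad {w : ℝ → ℝ} {β : ℝ} (h : IsWeight w β) : ∃ W, Ad w W β := by
  obtain ⟨W, hW⟩ := h.bdd
  exact ⟨W, ad_of h.pos h.meas hW h.top h.dini⟩

theorem riesz_isWeight {k : ℝ} (hk : 0 < k) : IsWeight (riesz k) 1 where
  pos := one_pos
  meas := by
    unfold riesz
    exact Measurable.pow_const (by fun_prop) k
  bdd := ⟨1, fun u h1 h2 => by
    have h3 := (Ad_rzw hk).wt.bd u
    unfold cut at h3
    rwa [Set.indicator_of_mem (show u ∈ Set.Ioc (0 : ℝ) 1 from ⟨h1, h2⟩)] at h3⟩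
  top := fun κ h0 h1 h => by
    refine (Ad_rzw hk).top κ h1 ?_
    filter_upwards [h] with x hx hx2
    have h3 := hx hx2
    unfold cut
    rw [Set.indicator_of_mem (show x ∈ Set.Ioc (0 : ℝ) 1 from ⟨h0.trans_lt hx2.1, hx2.2.le⟩)]
    exact h3
  dini := by
    refine (Ad_rzw hk).dini.congr_fun (fun u hu => ?_) measurableSet_Ioo
    simp only
    unfold cut
    rw [Set.indicator_of_mem (show u ∈ Set.Ioc (0 : ℝ) 1 from ⟨hu.1, hu.2.le⟩)]
    rfl

theorem riesz_nonneg (k u : ℝ) : 0 ≤ riesz k u := by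
  unfold riesz
  positivity

end proofs

/-- **Weighted Euler products, the order at the centre and the Riemann hypothesis.** -/
theorem result (K : Type) [Field K] [NumberField K] {n : ℕ} (X : Set (MvPolynomial (Fin n) (𝓞 K)))
    (d i N : ℕ) (B : HeightOneSpectrum (𝓞 K) → ℝ[X]) (hB : IsEulerSystem X d i N B)
    (hpure : IsPure B i) (F : ℂ → ℂ) (hF : Continues B i F) :
    (∃ m : ℕ, analyticOrderAt F (centre i) = m) ∧
    -- one admissible weight, no assumption on the growth of `F`
    (∀ (w : ℝ → ℝ) (β : ℝ), IsWeight w β →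
      ((∀ ε : ℝ, 0 < ε → ∃ C : ℝ, ∀ᶠ X : ℝ in atTop, |logProduct B i w β X| ≤ C * X ^ ε) →
        NoZeros F i) ∧
      (∀ ρ : ℝ, Tendsto (fun X : ℝ => logProduct B i w β X / Real.log (Real.log X)) atTop
          (𝓝 (-ρ)) →
        NoZeros F i ∧ ∃ m : ℕ, analyticOrderAt F (centre i) = m ∧ (m : ℝ) = ρ) ∧
      (∀ ρ : ℝ, (∀ u : ℝ, 0 < u → u ≤ β → 0 ≤ w u) →
        (∀ ε : ℝ, 0 < ε → ∀ᶠ X : ℝ in atTop, Real.log X ^ (-(ρ + ε)) ≤ product B i w β X) →
        NoZeros F i ∧ ∃ m : ℕ, analyticOrderAt F (centre i) = m ∧ (m : ℝ) ≤ ρ)) ∧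
    -- the equivalences
    (HasPolynomialGrowth F i → ∀ r : ℕ,
      List.TFAE [
        NoZeros F i ∧ analyticOrderAt F (centre i) ≤ r,
        ∀ k : ℝ, 0 < k → ∃ A : ℝ, 0 < A ∧ ∀ᶠ X : ℝ in atTop,
          A ≤ product B i (riesz k) 1 X * Real.log X ^ r,
        ∃ k : ℝ, 0 < k ∧ ∃ A : ℝ, 0 < A ∧ ∀ᶠ X : ℝ in atTop,
          A ≤ product B i (riesz k) 1 X * Real.log X ^ r,
        ∃ (w : ℝ → ℝ) (β : ℝ), IsWeight w β ∧ (∀ u : ℝ, 0 < u → u ≤ β → 0 ≤ w u) ∧
          ∀ ε : ℝ, 0 < ε → ∀ᶠ X : ℝ in atTop, Real.log X ^ (-(r + ε)) ≤ product B i w β X] ∧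
      List.TFAE [
        NoZeros F i ∧ analyticOrderAt F (centre i) = r,
        ∀ k : ℝ, 0 < k → ∃ A : ℝ, 0 < A ∧
          Tendsto (fun X : ℝ => product B i (riesz k) 1 X * Real.log X ^ r) atTop (𝓝 A),
        ∃ k : ℝ, 0 < k ∧ ∃ A₁ A₂ : ℝ, 0 < A₁ ∧ 0 < A₂ ∧ ∀ᶠ X : ℝ in atTop,
          A₁ ≤ product B i (riesz k) 1 X * Real.log X ^ r ∧
            product B i (riesz k) 1 X * Real.log X ^ r ≤ A₂,
        ∃ (w : ℝ → ℝ) (β : ℝ), IsWeight w β ∧
          Tendsto (fun X : ℝ => logProduct B i w β X / Real.log (Real.log X)) atTop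
            (𝓝 (-(r : ℝ)))]) := by
  obtain ⟨N', ⟨β₀, E⟩, -⟩ := hB.ldata
  have h : Pool.Agent.TH270.SH.Eul B N' (centre i) := eul hB.const (fun v => E.deg v) hpure
  have he : ∀ s : ℂ, centre i + 1 / 2 < s.re → F s = Pool.Agent.TH270.SH.LB B s := fun s hs =>
    hF.2.2 s (by rwa [centre_half] at hs)
  obtain ⟨m, hm⟩ : ∃ m : ℕ, analyticOrderAt F (centre i) = m := by
    obtain ⟨m, hm⟩ := Pool.Agent.TH270.SH.exists_ord h.sys (h.con hF.1 he)
    exact ⟨m, by rw [← (Pool.Agent.TH270.SH.order_shift hF.2.1).2, hm]⟩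
  have W := Pool.Agent.TH270.RS.lw h hF.1 hF.2.1 he hm
  have hz : (∀ s : ℂ, 0 < s.re → F (centre i + s) ≠ 0) ↔ NoZeros F i :=
    Pool.Agent.TH270.RS.zf_iff
  -- the conditions with a power of the logarithm
  have hpw : ∀ (w : ℝ → ℝ) (β ρ : ℝ), (∀ ε : ℝ, 0 < ε → ∀ᶠ X : ℝ in atTop,
      Real.log X ^ (-(ρ + ε)) ≤ product B i w β X) → ∀ ε : ℝ, 0 < ε → ∀ᶠ Y : ℝ in atTop,
        -((ρ + ε) * Real.log (Real.log Y)) ≤ Pool.Agent.TH270.RS.Mw Pool.Agent.TH270.SH.nmK
          (Pool.Agent.TH270.SH.alB B N' (centre i)) w β Y := by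
    intro w β ρ hh ε hε
    filter_upwards [hh ε hε, eventually_gt_atTop 1] with Y h1 h2
    have hl := Real.log_pos h2
    have h3 := Real.log_le_log (Real.rpow_pos_of_pos hl _) h1
    unfold product at h3
    rw [Real.log_exp, Real.log_rpow hl, logProduct_eq h] at h3
    linarith
  refine ⟨⟨m, hm⟩, fun w β hw => ?_, fun hG r => ?_⟩
  · obtain ⟨W₀, hA⟩ := hw.ad
    refine ⟨fun h1 => hz.1 (W.of_small hA fun ε hε => ?_), fun ρ h1 => ?_, fun ρ hw0 h1 => ?_⟩
    · simp only [logProduct_eq h] at h1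
      exact h1 ε hε
    · simp only [logProduct_eq h] at h1
      obtain ⟨h2, h3⟩ := W.of_lim hA h1
      exact ⟨hz.1 h2, m, hm, h3.symm⟩
    · obtain ⟨h2, h3⟩ := W.of_lower hA hw0 (hpw w β ρ h1)
      exact ⟨hz.1 h2, m, hm, h3⟩
  · have hc : 0 ≤ centre i := by
      unfold centre
      positivity
    have hG' := Pool.Agent.TH270.RS.grow_shift hc hG
    have e1 : analyticOrderAt F (centre i) ≤ r ↔ m ≤ r := by
      rw [hm]
      exact Nat.cast_le
    have e2 : analyticOrderAt F (centre i) = r ↔ m = r := by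
      rw [hm]
      exact Nat.cast_inj
    have t1 := W.one_sided hG' r
    have t2 := W.two_sided hG' r
    rw [hz, ← e1] at t1
    rw [hz, ← e2] at t2
    constructor
    · tfae_have 1 ↔ 2 := by
        unfold product
        simp only [logProduct_eq h]
        exact t1.out 0 1
      tfae_have 2 ↔ 3 := by
        unfold product
        simp only [logProduct_eq h]
        exact t1.out 1 2
      tfae_have 3 → 4 := by
        rintro ⟨k, hk, A, hA, h1⟩
        refine ⟨riesz k, 1, riesz_isWeight hk, fun u _ _ => riesz_nonneg k u, fun ε hε => ?_⟩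
        have h2 : Tendsto (fun Y : ℝ => Real.log Y ^ ε) atTop atTop :=
          (tendsto_rpow_atTop hε).comp Real.tendsto_log_atTop
        filter_upwards [h1, h2.eventually_ge_atTop (1 / A), eventually_gt_atTop 1] with Y h3 h4 h5
        have hl := Real.log_pos h5
        have hr : 0 < Real.log Y ^ ((r : ℝ) + ε) := Real.rpow_pos_of_pos hl _
        rw [Real.rpow_neg hl.le, inv_le_iff_one_le_mul₀ hr, Real.rpow_add hl, Real.rpow_natCast,
          ← mul_assoc]
        calc (1 : ℝ) = A * (1 / A) := by field_simp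
          _ ≤ _ := mul_le_mul h3 h4 (by positivity) (by
            unfold product
            positivity)
      tfae_have 4 → 1 := by
        rintro ⟨w, β, hw, hw0, h1⟩
        obtain ⟨W₀, hA⟩ := hw.ad
        obtain ⟨h2, h3⟩ := W.of_lower hA hw0 (hpw w β r h1)
        exact ⟨hz.1 h2, e1.2 (by exact_mod_cast h3)⟩
      tfae_finish
    · tfae_have 1 ↔ 2 := by
        unfold product
        simp only [logProduct_eq h]
        exact t2.out 0 1
      tfae_have 2 ↔ 3 := by
        unfold product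
        simp only [logProduct_eq h]
        exact t2.out 1 2
      tfae_have 1 → 4 := by
        intro h1
        refine ⟨riesz 1, 1, riesz_isWeight one_pos, ?_⟩
        simp only [logProduct_eq h]
        have h0 : ∀ k : ℝ, 0 < k → ∃ A : ℝ, 0 < A ∧ Tendsto (fun Y : ℝ =>
            Real.exp (Pool.Agent.TH270.RS.Mw Pool.Agent.TH270.SH.nmK
              (Pool.Agent.TH270.SH.alB B N' (centre i)) (Pool.Agent.TH942.RZ.rzw k) 1 Y) *
              Real.log Y ^ r) atTop (𝓝 A) := (t2.out 0 1).1 h1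
        obtain ⟨A, hA, h2⟩ := h0 1 one_pos
        -- the logarithm of the limit
        have h3 := h2.log hA.ne'
        have h4 : Tendsto (fun Y : ℝ => Real.log (Real.exp (Pool.Agent.TH270.RS.Mw
            Pool.Agent.TH270.SH.nmK (Pool.Agent.TH270.SH.alB B N' (centre i))
            (Pool.Agent.TH942.RZ.rzw 1) 1 Y) * Real.log Y ^ r) / Real.log (Real.log Y)) atTop
            (𝓝 0) := h3.div_atTop Pool.Agent.TH270.RS.loglog_tendsto
        have h5 := h4.sub_const (r : ℝ)
        rw [zero_sub] at h5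
        refine h5.congr' ?_
        filter_upwards [Pool.Agent.TH270.RS.loglog_tendsto.eventually_ge_atTop 1,
          eventually_gt_atTop 1] with Y h6 h7
        have hl := Real.log_pos h7
        have h8 : 0 < Real.log (Real.log Y) := by linarith
        rw [Real.log_mul (Real.exp_ne_zero _) (pow_pos hl r).ne', Real.log_exp, Real.log_pow,
          add_div, mul_div_cancel_right₀ _ h8.ne', add_sub_cancel_right]
        rfl
      tfae_have 4 → 1 := by
        rintro ⟨w, β, hw, h1⟩
        obtain ⟨W₀, hA⟩ := hw.ad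
        simp only [logProduct_eq h] at h1
        obtain ⟨h2, h3⟩ := W.of_lim hA h1
        exact ⟨hz.1 h2, e2.2 (by exact_mod_cast h3.symm)⟩
      tfae_finish

end Pool.Agent.Results.MP_b8021b_nt.OneSidedLaw
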